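import Pool.Agent.W5h40.NH.Pluri

/-!
# Statistical repulsion from orbits along which the area is expanded

Let `f` be a `C^r` diffeomorphism of a flat torus and let `x` be a point with
`c n ≤ log |det Df^n(x)|` for all large `n`, `c > 0`.  For all `g` close to `f`, all points `x'` whose
`g`-orbit stays close to the `f`-orbit of `x`, and Lebesgue almost every `y`, the empirical measures
of `y` and `x'` for `g` are at a Wasserstein distance of at least `c₀ > 0` for all large times.
-/

open Set Filter Topology MeasureTheory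

namespace Pool.Agent.U517.NR

open Pool.Agent.W5h40.NH

variable {b : Module.Basis (Fin 2) ℝ V} {r : ℕ}

/-- a tile -/
def tile (b : Module.Basis (Fin 2) ℝ V) (γ : Lat b) : Set V :=
  (fun z => z - (γ : V)) ⁻¹' (ZSpan.fundamentalDomain b)

lemma tile_meas (γ : Lat b) : MeasurableSet (tile b γ) :=
  (measurable_id.sub_const (γ : V)) (ZSpan.fundamentalDomain_measurableSet b)

lemma tile_cover (z : V) : ∃ γ : Lat b, z ∈ tile b γ :=
  ⟨⟨ZSpan.floor b z, (ZSpan.floor b z).2⟩, ZSpan.fract_mem_fundamentalDomain b z⟩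

lemma tile_inj (γ : Lat b) : ∀ x ∈ tile b γ, ∀ y ∈ tile b γ, x - y ∈ Lat b → x = y := by
  intro x hx y hy hxy
  simp only [tile, mem_preimage] at hx hy
  have h1 : (x - (γ : V)) - (y - (γ : V)) ∈ Submodule.span ℤ (Set.range b) := by
    have e : (x - (γ : V)) - (y - (γ : V)) = x - y := by abel
    rw [e]; exact hxy
  have h2 : ZSpan.fract b (x - (γ : V)) = ZSpan.fract b (y - (γ : V)) := by
    rw [ZSpan.fract_eq_fract]
    have := Submodule.neg_mem _ h1
    convert this using 1
    abel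
  rw [ZSpan.fract_eq_self.2 hx, ZSpan.fract_eq_self.2 hy] at h2
  have := congrArg (fun t => t + (γ : V)) h2
  simpa using this

/-- the sums of the logarithms of the Jacobians -/
noncomputable def SJ (g : TorusDiffeo b r) (n : ℕ) (y : V) : ℝ :=
  ∑ i ∈ Finset.range n, lj g (g.toFun^[i] y)

lemma SJ_cont (g : TorusDiffeo b r) (hr : 1 ≤ r) (n : ℕ) : Continuous (SJ g n) := by
  unfold SJ
  refine continuous_finsetSum _ fun i _ => ?_
  exact (lj_cont g hr).comp (g.smooth.continuous.iterate i)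

lemma log_det (g : TorusDiffeo b r) (hr : 1 ≤ r) (n : ℕ) (y : V) :
    Real.log |(Dn g n y).det| = SJ g n y := by
  rw [Dn_det g hr, Real.log_exp]; rfl

lemma vol_bound (g : TorusDiffeo b r) (hr : 1 ≤ r) (n : ℕ) {D : Set V} (hDm : MeasurableSet D)
    (hinj : ∀ x ∈ D, ∀ y ∈ D, x - y ∈ Lat b → x = y) (a : ℝ) (ha : ∀ y ∈ D, a ≤ SJ g n y) :
    ENNReal.ofReal (Real.exp a) * volume D ≤ volume (ZSpan.fundamentalDomain b) := by
  refine le_trans ?_ (volume_image_le g n hDm hinj)
  have h1 := lintegral_abs_det_fderiv_eq_addHaar_image (volume : Measure V) hDm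
    (f := g.toFun^[n]) (f' := fun y => Dn g n y)
    (fun y _ => ((((diff_toFun g hr).iterate n) y).hasFDerivAt).hasFDerivWithinAt)
    ((g.inj.iterate n).injOn)
  rw [← h1]
  calc ENNReal.ofReal (Real.exp a) * volume D
      = ∫⁻ _ in D, ENNReal.ofReal (Real.exp a) := by rw [setLIntegral_const]
    _ ≤ _ := by
      refine setLIntegral_mono' hDm fun y hy => ENNReal.ofReal_le_ofReal ?_
      have h2 := ha y hy
      rw [← log_det g hr] at h2
      have h3 : 0 < |(Dn g n y).det| := by rw [Dn_det g hr]; exact Real.exp_pos _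
      rw [← Real.exp_log h3]
      exact Real.exp_le_exp.2 h2

/-- At almost every point the area is not expanded exponentially. -/
theorem ae_small (g : TorusDiffeo b r) (hr : 1 ≤ r) {a : ℝ} (ha : 0 < a) :
    ∀ᵐ y : V, ∀ᶠ n : ℕ in atTop, SJ g n y < a * n := by
  have hcount : Countable (Lat b) := inferInstance
  have hfin : volume (ZSpan.fundamentalDomain b) ≠ ⊤ :=
    (ZSpan.fundamentalDomain_isBounded b).measure_lt_top.ne
  have key : ∀ γ : Lat b, ∀ᵐ y : V, ∀ᶠ n : ℕ in atTop,
      y ∉ tile b γ ∩ {y | a * n ≤ SJ g n y} := by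
    intro γ
    refine ae_eventually_notMem ?_
    have hb : ∀ n : ℕ, volume (tile b γ ∩ {y | a * n ≤ SJ g n y}) ≤
        ENNReal.ofReal (Real.exp (-a) ^ n) * volume (ZSpan.fundamentalDomain b) := by
      intro n
      have hm : MeasurableSet (tile b γ ∩ {y | a * n ≤ SJ g n y}) :=
        (tile_meas γ).inter (isClosed_le continuous_const (SJ_cont g hr n)).measurableSet
      have h1 := vol_bound g hr n hm
        (fun x hx y hy => tile_inj γ x hx.1 y hy.1) (a * n) (fun y hy => hy.2)
      have h2 : ENNReal.ofReal (Real.exp (-a) ^ n) * ENNReal.ofReal (Real.exp (a * n)) = 1 := by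
        rw [← ENNReal.ofReal_mul (by positivity), ← Real.exp_nat_mul, ← Real.exp_add]
        have : (n : ℝ) * -a + a * n = 0 := by ring
        rw [this, Real.exp_zero, ENNReal.ofReal_one]
      calc volume (tile b γ ∩ {y | a * n ≤ SJ g n y})
          = ENNReal.ofReal (Real.exp (-a) ^ n) * (ENNReal.ofReal (Real.exp (a * n)) *
            volume (tile b γ ∩ {y | a * n ≤ SJ g n y})) := by rw [← mul_assoc, h2, one_mul]
        _ ≤ _ := mul_le_mul_right h1 _
    refine ne_top_of_le_ne_top ?_ (ENNReal.tsum_le_tsum hb)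
    rw [ENNReal.tsum_mul_right]
    refine ENNReal.mul_ne_top ?_ hfin
    have hs : Summable fun n : ℕ => Real.exp (-a) ^ n :=
      summable_geometric_of_lt_one (Real.exp_pos _).le (by rw [Real.exp_lt_one_iff]; linarith)
    exact hs.tsum_ofReal_ne_top
  have hall := ae_all_iff.2 key
  filter_upwards [hall] with y hy
  obtain ⟨γ, hγ⟩ := tile_cover (b := b) y
  filter_upwards [hy γ] with n hn
  by_contra hcon
  exact hn ⟨hγ, not_lt.1 hcon⟩

/-- **Statistical repulsion.** -/
theorem repulsion (f : TorusDiffeo b r) (hr : 1 ≤ r) {x : V} {c : ℝ} (hc : 0 < c)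
    (hgrow : ∀ᶠ n : ℕ in atTop, c * n ≤ Real.log |(Dn f n x).det|) :
    ∃ ε > 0, ∃ δ > 0, ∃ c₀ > 0, ∀ g : TorusDiffeo b r, CrClose ε f g → ∀ x' : V,
      (∀ n : ℕ, dT b (g.toFun^[n] x') (f.toFun^[n] x) ≤ δ) →
      ∀ᵐ y : V, ∀ᶠ n : ℕ in atTop, c₀ ≤ dW g n y x' := by
  obtain ⟨-, hFuc⟩ := periodic_uc (lj_cont f hr) (lj_periodic f)
  obtain ⟨δ, hδ, hFδ⟩ := hFuc (c / 16) (by positivity)
  obtain ⟨ε, hε, hclose⟩ := lj_close f hr (c := c / 16) (by positivity)
  obtain ⟨K, hK, F', hF'1, hF'2⟩ := lip_approx (lj_cont f hr) (lj_periodic f)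
    (η := c / 32) (by positivity)
  refine ⟨ε, hε, δ / 2, by positivity, c / (16 * K), by positivity, fun g hg x' hx' => ?_⟩
  have hgl := hclose g (fun z => crClose_fderiv hr hg z)
  have hcomp : ∀ i, lj f (f.toFun^[i] x) - c / 8 ≤ lj g (g.toFun^[i] x') := by
    intro i
    have h1 := abs_lt.1 (hgl (g.toFun^[i] x'))
    have h2 := abs_lt.1 (hFδ _ _ (lt_of_le_of_lt (hx' i) (by linarith : δ / 2 < δ)))
    linarith [h1.1, h2.1]
  have havg : ∀ n, 0 < n → ∀ y, |SJ g n y - SJ g n x'| ≤ (3 * c / 16 + K * dW g n y x') * n := by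
    intro n hn y
    have hn' : (0 : ℝ) < n := by exact_mod_cast hn
    have h1 := le_dW g n y x' (φ := fun z => F' z / K) (fun z w => by
      rw [← sub_div, abs_div, abs_of_pos hK, div_le_iff₀ hK, mul_comm]
      exact hF'1 z w)
    rw [← sub_div, abs_div, abs_of_pos hn', div_le_iff₀ hn', ← Finset.sum_div, ← Finset.sum_div,
      ← sub_div, abs_div, abs_of_pos hK, div_le_iff₀ hK] at h1
    have h2 : ∀ y, |SJ g n y - ∑ i ∈ Finset.range n, F' (g.toFun^[i] y)| ≤ 3 * c / 32 * n := by
      intro y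
      unfold SJ
      rw [← Finset.sum_sub_distrib]
      refine (Finset.abs_sum_le_sum_abs _ _).trans ?_
      refine (Finset.sum_le_sum (g := fun _ => 3 * c / 32) fun i _ => ?_).trans ?_
      · have h3 := abs_lt.1 (hgl (g.toFun^[i] y))
        have h4 := abs_le.1 (hF'2 (g.toFun^[i] y))
        rw [abs_le]
        constructor <;> linarith [h3.1, h3.2, h4.1, h4.2]
      · rw [Finset.sum_const, Finset.card_range, nsmul_eq_mul, mul_comm]
    have h3 := abs_le.1 (h2 y)
    have h4 := abs_le.1 (h2 x')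
    have h5 := abs_le.1 h1
    rw [abs_le]
    constructor
    · nlinarith [h3.1, h4.2, h5.1]
    · nlinarith [h3.2, h4.1, h5.2]
  filter_upwards [ae_small g hr (a := c / 2) (by positivity)] with y hy
  filter_upwards [hy, hgrow, eventually_gt_atTop 0] with n h1 h2 h3
  by_contra hcon
  push Not at hcon
  have hn' : (0 : ℝ) < n := by exact_mod_cast h3
  have h4 := (abs_le.1 (havg n h3 y)).1
  rw [log_det f hr] at h2
  have h5 : SJ f n x - c / 8 * n ≤ SJ g n x' := by
    have h6 : ∑ i ∈ Finset.range n, (lj f (f.toFun^[i] x) - c / 8) ≤ SJ g n x' :=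
      Finset.sum_le_sum fun i _ => hcomp i
    rw [Finset.sum_sub_distrib, Finset.sum_const, Finset.card_range, nsmul_eq_mul] at h6
    have e : SJ f n x = ∑ i ∈ Finset.range n, lj f (f.toFun^[i] x) := rfl
    rw [e]
    linarith
  have h7 : K * dW g n y x' ≤ c / 16 := by
    rw [lt_div_iff₀ (by positivity)] at hcon
    nlinarith
  nlinarith

end Pool.Agent.U517.NR
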